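import Pool.Agent.K7x.FPTnC

/-!
# A Fraïssé structure with `FPT_1` but without `FPT_2`

The structure is `ℕ × ℤ/3` with the relation `E x y` (same first coordinate) and the relation
`R x y u v`: `x, y` are different points of a class of `E`, `u, v` are points of a class of `E`, and
the two pairs have the same orientation `y - x = v - u`. Its automorphisms permute the classes and
either preserve the cyclic orientation of all the classes or reverse all of them.
-/

set_option autoImplicit false

namespace Pool.Agent.Results.MP_01066e_lc.FPTOneNotTwo

open FirstOrder Language
open Pool.Agent.R789.FPT Pool.Agent.K7x.FPTn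

theorem result : ∃ (L : FirstOrder.Language.{0, 0}) (M : Type) (_ : L.Structure M),
    IsFraisseStructure L M ∧ HasFPTn L M 1 ∧ ¬ HasFPTn L M 2 :=
  ⟨Lg, Ms, inferInstance, fraisse, fpt_one, not_fpt_two⟩

end Pool.Agent.Results.MP_01066e_lc.FPTOneNotTwo
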